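import Pool.Agent.H923R2.FP.Stubs

/-! ABS3: generation (helper778 for helper923). -/

set_option autoImplicit false
set_option linter.unusedSectionVars false

open scoped ComplexConjugate CStarAlgebra

noncomputable section

namespace Pool.Agent.H923R2.FP.T_ABS3

open Pool.Agent.H923R2.FP

variable {A Q R : Type} [CStarAlgebra A] [Ring Q] [StarRing Q] [Algebra ℂ Q]
  [Ring R] [StarRing R] [Algebra ℂ R]

/-- product of two expressions -/
def mulx (e e' : Ex Q R) : Ex Q R := e.flatMap fun p => e'.map fun q => (p.1 * q.1, p.2 ++ q.2)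

theorem evx_map_mul (θ : Lt Q R → A) (p : ℂ × List (Lt Q R)) (e' : Ex Q R) :
    evx θ (e'.map fun q => (p.1 * q.1, p.2 ++ q.2)) = (p.1 • ev θ p.2) * evx θ e' := by
  induction e' with
  | nil => simp
  | cons q e' ih =>
    rw [List.map_cons, evx_cons, evx_cons, ih, mul_add]
    congr 1
    simp only [ev_append]
    rw [smul_mul_smul_comm]

theorem evx_mulx (θ : Lt Q R → A) (e e' : Ex Q R) :
    evx θ (mulx e e') = evx θ e * evx θ e' := by
  induction e with
  | nil => simp [mulx]
  | cons p e ih =>
    have : mulx (p :: e) e' = (e'.map fun q => (p.1 * q.1, p.2 ++ q.2)) ++ mulx e e' := by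
      simp [mulx]
    rw [this, evx_append, ih, evx_map_mul, evx_cons, add_mul]

/-- adjoint of an expression -/
def stx (e : Ex Q R) : Ex Q R := e.map fun p => (conj p.1, stw p.2)

theorem evx_stx {θ : Lt Q R → A} (hθ : ∀ z, θ (stl z) = star (θ z)) (e : Ex Q R) :
    evx θ (stx e) = star (evx θ e) := by
  induction e with
  | nil => simp [stx]
  | cons p e ih =>
    have : stx (p :: e) = (conj p.1, stw p.2) :: stx e := rfl
    rw [this, evx_cons, evx_cons, star_add, ih, star_smul, star_ev hθ]
    rfl

/-- the `*`-algebra of the values of the expressions -/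
def WW {θ : Lt Q R → A} (hθ : ∀ z, θ (stl z) = star (θ z)) : StarSubalgebra ℂ A where
  carrier := {y | ∃ e : Ex Q R, y = evx θ e}
  mul_mem' := by
    rintro _ _ ⟨e, rfl⟩ ⟨e', rfl⟩
    exact ⟨mulx e e', (evx_mulx θ e e').symm⟩
  add_mem' := by
    rintro _ _ ⟨e, rfl⟩ ⟨e', rfl⟩
    exact ⟨e ++ e', (evx_append θ e e').symm⟩
  algebraMap_mem' := fun c => ⟨[(c, [])], by simp [Algebra.algebraMap_eq_smul_one]⟩
  star_mem' := by
    rintro _ ⟨e, rfl⟩
    exact ⟨stx e, (evx_stx hθ e).symm⟩

theorem mem_WW {θ : Lt Q R → A} (hθ : ∀ z, θ (stl z) = star (θ z)) (z : Lt Q R) :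
    θ z ∈ WW hθ := ⟨[(1, [z])], by simp⟩

theorem t_ABS3 : S_ABS3 := by
  intro J D _ t i0 A _ τ e f hR φ hφ y ε hε
  have hssa : star (f (cx φ)) = f (cx φ) := by
    rw [← map_star]
    congr 1
    ext x
    simp [cx]
  have hθ := vl_stl (e i0) (RR e i0).subtype hssa
  have hfc : Continuous f := map_continuous f
  have hf : ∀ g, f g ∈ (WW hθ).topologicalClosure := by
    have hB : ((WW hθ).topologicalClosure.comap f) = ⊤ := by
      have h1 : ((WW hθ).topologicalClosure.comap f).topologicalClosure = ⊤ := by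
        apply ContinuousMap.starSubalgebra_topologicalClosure_eq_top_of_separatesPoints
        intro x x' hxx
        refine ⟨_, ⟨cx φ, ?_, rfl⟩, ?_⟩
        · exact (WW hθ).le_topologicalClosure (mem_WW hθ Lt.s)
        · intro h
          apply hxx
          apply hφ
          have : ((φ x : ℝ) : ℂ) = ((φ x' : ℝ) : ℂ) := h
          exact_mod_cast this
      have h2 : IsClosed (((WW hθ).topologicalClosure.comap f : StarSubalgebra ℂ _) :
          Set C(unitInterval, ℂ)) :=
        ((WW hθ).isClosed_topologicalClosure).preimage hfc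
      have h3 := StarSubalgebra.topologicalClosure_minimal (le_refl
        ((WW hθ).topologicalClosure.comap f)) h2
      rw [h1] at h3
      exact top_le_iff.1 h3
    intro g
    have : g ∈ (WW hθ).topologicalClosure.comap f := by rw [hB]; trivial
    exact this
  have hle : StarAlgebra.adjoin ℂ ((⋃ j, Set.range (e j)) ∪ Set.range f) ≤
      (WW hθ).topologicalClosure := by
    apply StarAlgebra.adjoin_le
    rintro _ (hx | ⟨g, rfl⟩)
    · obtain ⟨j, x, rfl⟩ := Set.mem_iUnion.1 hx
      apply (WW hθ).le_topologicalClosure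
      by_cases hj : j = i0
      · subst hj
        exact mem_WW hθ (Lt.q x)
      · have hmem : e j x ∈ RR e i0 := by
          have : (e j).range ≤ RR e i0 := le_iSup (fun k : {k // k ≠ i0} => (e k.1).range) ⟨j, hj⟩
          exact this ⟨x, rfl⟩
        exact mem_WW hθ (Lt.r ⟨e j x, hmem⟩)
    · exact hf g
  have htop : (WW hθ).topologicalClosure = ⊤ := by
    have := StarSubalgebra.topologicalClosure_minimal hle (WW hθ).isClosed_topologicalClosure
    rw [hR.gen] at this
    exact top_le_iff.1 this
  have hy : y ∈ closure (WW hθ : Set A) := by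
    have : y ∈ (WW hθ).topologicalClosure := by rw [htop]; trivial
    exact this
  obtain ⟨_, ⟨x, rfl⟩, hx⟩ := Metric.mem_closure_iff.1 hy ε hε
  exact ⟨x, by rwa [dist_eq_norm] at hx⟩

end Pool.Agent.H923R2.FP.T_ABS3
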