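import Pool.Agent.H923R2.FP.Stubs

/-! AD: algebra of `AdK` (helper778 for helper923). -/

set_option autoImplicit false

namespace Pool.Agent.H923R2.FP.T_AD

open Pool.Agent.H923R2.FP

variable {A Q R : Type} [CStarAlgebra A] [Ring Q] [StarRing Q] [Algebra ℂ Q]
  [Ring R] [StarRing R] [Algebra ℂ R]

theorem AdK_eq (π : Q →⋆ₐ[ℂ] A) (ρ : R →⋆ₐ[ℂ] A) (u : unitary Q) (a : unitary R) (X : R) (v : F2)
    (s : A) (c : F2 →₀ ℝ) (κ : ℕ → ℕ → ℂ) (M : ℕ) :
    AdK π ρ u a X v s c κ M = c.sum fun g x => (x : ℂ) •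
      ((GG π ρ u a g : A) * KK π ρ u a X v s κ M * (GG π ρ u a g⁻¹ : A)) := rfl

theorem Uc_conj {B : Type} [Ring B] (V W x : B) (hVW : V * W = 1) (hWV : W * V = 1) :
    ∀ m : ℕ, V * Uc x m * W = Uc (V * x * W) m ∧
      V * Uc x (m + 1) * W = Uc (V * x * W) (m + 1) := by
  intro m
  induction m with
  | zero => exact ⟨by simp [Uc, hVW], by simp [Uc]⟩
  | succ m ih =>
    refine ⟨ih.2, ?_⟩
    have h1 : V * Uc x (m + 1 + 1) * W =
        (V * x * W) * (V * Uc x (m + 1) * W) - V * Uc x m * W := by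
      show V * (x * Uc x (m + 1) - Uc x m) * W = _
      have : (V * x * W) * (V * Uc x (m + 1) * W) =
          V * x * (W * V) * Uc x (m + 1) * W := by
        simp only [mul_assoc]
      rw [this, hWV, mul_one]
      noncomm_ring
    rw [h1, ih.1, ih.2]
    rfl

theorem map_Uc {B C : Type} [Ring B] [Ring C] (f : B →+* C) (x : B) :
    ∀ m : ℕ, f (Uc x m) = Uc (f x) m ∧ f (Uc x (m + 1)) = Uc (f x) (m + 1) := by
  intro m
  induction m with
  | zero => exact ⟨by simp [Uc], by simp [Uc]⟩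
  | succ m ih =>
    refine ⟨ih.2, ?_⟩
    show f (x * Uc x (m + 1) - Uc x m) = f x * Uc (f x) (m + 1) - Uc (f x) m
    rw [map_sub, map_mul, ih.1, ih.2]

theorem t_AD : S_AD := by
  intro A Q R _ _ _ _ _ _ _ π ρ s u a X v κ M
  refine ⟨fun c c' => ?_, fun r c => ?_, fun g c => ?_, ?_, fun m => ?_⟩
  · simp only [AdK_eq]
    rw [Finsupp.sum_add_index']
    · intro g
      simp
    · intro g x y
      rw [Complex.ofReal_add, add_smul]
  · simp only [AdK_eq]
    rw [Finsupp.sum_smul_index (by intro g; simp), Finsupp.smul_sum]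
    refine Finsupp.sum_congr fun g _ => ?_
    rw [Complex.ofReal_mul, mul_smul]
  · simp only [AdK_eq, act]
    rw [Finsupp.sum_mapDomain_index (by intro g; simp)
      (by intro g x y; rw [Complex.ofReal_add, add_smul])]
    unfold Finsupp.sum
    rw [Finset.mul_sum, Finset.sum_mul]
    refine Finset.sum_congr rfl fun w _ => ?_
    rw [mul_smul_comm, smul_mul_assoc]
    congr 1
    rw [map_mul, mul_inv_rev, map_mul, Submonoid.coe_mul, Submonoid.coe_mul]
    simp only [mul_assoc]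
  · rw [AdK_eq, Finsupp.sum_single_index (by simp)]
    simp
  · unfold PU
    have h1 : (GG π ρ u a v : A) * (GG π ρ u a v⁻¹ : A) = 1 := by
      rw [← Submonoid.coe_mul, ← map_mul, mul_inv_cancel, map_one, OneMemClass.coe_one]
    have h2 : (GG π ρ u a v⁻¹ : A) * (GG π ρ u a v : A) = 1 := by
      rw [← Submonoid.coe_mul, ← map_mul, inv_mul_cancel, map_one, OneMemClass.coe_one]
    have h3 : Uc X 1 = X := rfl
    have h4 : ρ (Uc X m) = Uc (ρ X) m := (map_Uc (ρ : R →+* A) X m).1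
    rw [h3, h4, (Uc_conj _ _ _ h1 h2 m).1]

end Pool.Agent.H923R2.FP.T_AD
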