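import Mathlib
import Pool.Agent.H922R2.OPC.Stubs

/-! LC0: the equation for the lowest terms, slope zero. -/

set_option autoImplicit false

open MvPolynomial

namespace Pool.Agent.H778R2.OPCLC0

open Pool.Agent.H922R2.OPC

theorem aeval_lam {k : Type} [Field k] (H : Polynomial k) :
    Polynomial.aeval (lam : L k) H = HahnSeries.single 0 H := by
  have halg : ∀ a : k, algebraMap k (L k) a = HahnSeries.single 0 (Polynomial.C a) := by
    intro a
    rw [HahnSeries.algebraMap_apply', PowerSeries.algebraMap_apply,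
      HahnSeries.ofPowerSeries_C, HahnSeries.C_apply, Polynomial.algebraMap_eq]
  have hpow : ∀ n : ℕ, (lam : L k) ^ n = HahnSeries.single 0 (Polynomial.X ^ n) := by
    intro n
    unfold lam
    rw [HahnSeries.single_pow, smul_zero]
  induction H using Polynomial.induction_on' with
  | add p q hp hq => rw [map_add, hp, hq, HahnSeries.single_add]
  | monomial n a =>
    rw [Polynomial.aeval_monomial, halg, hpow, HahnSeries.single_mul_single, add_zero,
      Polynomial.C_mul_X_pow_eq_monomial]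

theorem lc0 (k : Type) [Field k] [IsAlgClosed k] [CharZero k] : S_LC0 k := by
  intro hMUL hEVF D H hH hH' dX dT hdX hdT c hc hid hGeP hA e' κ' hκ' hGe1 hco1 e κ hκ hGe2 hco2
  have hn2 : 0 < D.n₂ := D.h₂.1
  set A : Polynomial k := (D.e₁ D.P).coeff (-(D.n₂ : ℤ)) with hAdef
  set E : Polynomial k := (D.e₁ (D.F (pderiv 1 D.f₂))).coeff (-(e : ℤ)) with hEdef
  have h1 : D.e₁ (D.F D.f₂) = HahnSeries.single 0 H := by
    rw [hH, ← Polynomial.aeval_algHom_apply]
    have : D.e₁ D.f₁ = lam := hEVF D.n₁ D.f₁ D.φ₁ D.ζ₁ D.h₁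
    rw [this, aeval_lam]
  have h2 : dX (D.e₁ (D.F D.f₂)) = HahnSeries.single 0 (Polynomial.derivative H) := by
    ext1
    funext w
    rw [hdX, h1]
    by_cases hw : w = 0
    · subst hw
      rw [HahnSeries.coeff_single_same, HahnSeries.coeff_single_same]
    · rw [HahnSeries.coeff_single_of_ne hw, HahnSeries.coeff_single_of_ne hw, map_zero]
  have h3 : dT (D.e₁ (D.F D.f₂)) = 0 := by
    ext1
    funext w
    rw [hdT, h1, HahnSeries.coeff_zero]
    by_cases hw : w + 1 = 0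
    · rw [hw]; simp
    · rw [HahnSeries.coeff_single_of_ne hw, mul_zero]
  rw [h2, h3, zero_mul, sub_zero] at hid
  -- lowest terms
  have hGe0 : ∀ p : Polynomial k, Ge 0 (HahnSeries.single (0 : ℤ) p) := by
    intro p i hi
    exact HahnSeries.coeff_single_of_ne hi.ne
  have hGedT : Ge (-(D.n₂ : ℤ) - 1) (dT (D.e₁ D.P)) := by
    intro i hi
    rw [hdT, hGeP (i + 1) (by linarith), mul_zero]
  have hcodT : (dT (D.e₁ D.P)).coeff (-(D.n₂ : ℤ) - 1) = -((D.n₂ : ℕ) : Polynomial k) * A := by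
    rw [hdT, sub_add_cancel]
    push_cast
    rfl
  obtain ⟨g1, g2⟩ := hMUL (Polynomial k) 0 (-(D.n₂ : ℤ) - 1) _ _ (hGe0 (Polynomial.derivative H))
    hGedT
  obtain ⟨g3, g4⟩ := hMUL (Polynomial k) _ (-(e' : ℤ)) _ _ g1 hGe1
  rw [g2, HahnSeries.coeff_single_same, hcodT, hco1] at g4
  have hGes : Ge (-(D.n₁ : ℤ) - 1) (HahnSeries.single (-(D.n₁ : ℤ) - 1) (Polynomial.C c)) := by
    intro i hi
    exact HahnSeries.coeff_single_of_ne hi.ne
  obtain ⟨g5, g6⟩ := hMUL (Polynomial k) (-(D.n₁ : ℤ) - 1) (-(e : ℤ)) _ _ hGes hGe2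
  rw [HahnSeries.coeff_single_same] at g6
  rw [hid] at g3 g4
  -- nonvanishing
  have hn2k : ((D.n₂ : ℕ) : k) ≠ 0 := Nat.cast_ne_zero.2 hn2.ne'
  have hn2P : ((D.n₂ : ℕ) : Polynomial k) ≠ 0 := by
    rw [← Polynomial.C_eq_natCast]
    exact Polynomial.C_ne_zero.2 hn2k
  have hκ'P : (Polynomial.C κ' : Polynomial k) ≠ 0 := Polynomial.C_ne_zero.2 hκ'
  have hcP : (Polynomial.C c : Polynomial k) ≠ 0 := Polynomial.C_ne_zero.2 hc
  have hE : E ≠ 0 := by
    intro h0
    rw [h0, zero_pow hn2.ne'] at hco2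
    exact mul_ne_zero (Polynomial.C_ne_zero.2 (pow_ne_zero _ hκ)) (pow_ne_zero _ hA) hco2.symm
  have hL : Polynomial.derivative H * (-((D.n₂ : ℕ) : Polynomial k) * A) * Polynomial.C κ' ≠ 0 :=
    mul_ne_zero (mul_ne_zero hH' (mul_ne_zero (neg_ne_zero.2 hn2P) hA)) hκ'P
  have hR : Polynomial.C c * E ≠ 0 := mul_ne_zero hcP hE
  have hidx : 0 + (-(D.n₂ : ℤ) - 1) + -(e' : ℤ) = -(D.n₁ : ℤ) - 1 + -(e : ℤ) := by
    rcases lt_trichotomy (0 + (-(D.n₂ : ℤ) - 1) + -(e' : ℤ)) (-(D.n₁ : ℤ) - 1 + -(e : ℤ)) with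
      h | h | h
    · have := g5 _ h
      rw [g4] at this
      exact absurd this hL
    · exact h
    · have := g3 _ h
      rw [g6] at this
      exact absurd this hR
  rw [hidx, g6] at g4
  -- `g4 : C c * E = H' * (-n₂ A) * C κ'`
  refine ⟨(c * κ / (-(D.n₂ : k) * κ')) ^ D.n₂, ?_, ?_⟩
  · exact pow_ne_zero _ (div_ne_zero (mul_ne_zero hc hκ) (mul_ne_zero (neg_ne_zero.2 hn2k) hκ'))
  · have hne : (-(D.n₂ : k) * κ') ≠ 0 := mul_ne_zero (neg_ne_zero.2 hn2k) hκ'
    have hpow := congrArg (fun p => p ^ D.n₂) g4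
    simp only [mul_pow] at hpow
    rw [hco2] at hpow
    have hCne : (Polynomial.C ((-(D.n₂ : k) * κ') ^ D.n₂) : Polynomial k) ≠ 0 :=
      Polynomial.C_ne_zero.2 (pow_ne_zero _ hne)
    apply mul_left_cancel₀ hCne
    have e1 : (Polynomial.C ((-(D.n₂ : k) * κ') ^ D.n₂) : Polynomial k) =
        (-((D.n₂ : ℕ) : Polynomial k)) ^ D.n₂ * Polynomial.C κ' ^ D.n₂ := by
      rw [Polynomial.C_pow, Polynomial.C_mul, mul_pow, Polynomial.C_neg, Polynomial.C_eq_natCast]
    have e2 : (Polynomial.C ((-(D.n₂ : k) * κ') ^ D.n₂) : Polynomial k) *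
        Polynomial.C ((c * κ / (-(D.n₂ : k) * κ')) ^ D.n₂) =
        Polynomial.C c ^ D.n₂ * Polynomial.C (κ ^ D.n₂) := by
      rw [← Polynomial.C_mul, ← mul_pow, mul_div_cancel₀ _ hne, mul_pow, Polynomial.C_mul,
        Polynomial.C_pow]
    rw [← mul_assoc, e2, e1]
    rw [mul_pow]
    linear_combination -hpow

end Pool.Agent.H778R2.OPCLC0
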